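import Mathlib
import Pool.Agent.W23.SG.All

/-! The values `a + d q` for `q` in an arbitrary set of primes, for all but few pairs `(a, d)`. -/

set_option autoImplicit false

namespace Pool.Agent.Results.MP_8bf9c2_nt.ArbitrarySetsOfPrimes
open Finset

/-- `n ≠ 0` has at most three prime factors (with multiplicity) `≥ X ^ (1 / 8)`, and all its other prime factors are
less than `X ^ ε` -/
def Gap (X : ℕ) (ε : ℝ) (n : ℤ) : Prop :=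
  n ≠ 0 ∧ ∃ m s : ℕ, n.natAbs = m * s ∧ (∀ l : ℕ, l.Prime → l ∣ m → (l : ℝ) < (X : ℝ) ^ ε) ∧
    s.primeFactorsList.length ≤ 3 ∧ ∀ l ∈ s.primeFactors, (X : ℝ) ^ (1 / 8 : ℝ) ≤ l

open Classical in
theorem result (ε : ℝ) (hε : 0 < ε) : ∃ c C η : ℝ, 0 < c ∧ 0 < η ∧ ∀ X : ℕ, 2 ≤ X → ∀ Q : Finset ℕ,
      (∀ q ∈ Q, q.Prime ∧ q ≤ X) → (X : ℝ) ^ (1 - η) ≤ Q.card → ∀ E : Finset (ℤ × ℕ),
      (∀ L ∈ E, Int.gcd L.1 L.2 = 1 ∧ |(L.1 : ℝ)| ≤ (X : ℝ) ^ (4 / 3 : ℝ) ∧ 1 ≤ L.2 ∧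
        (L.2 : ℝ) ≤ (X : ℝ) ^ (1 / 3 : ℝ) ∧
        ((Q.filter (fun q : ℕ => Gap X ε (L.1 + L.2 * q))).card : ℝ) < c * Q.card) →
      (E.card : ℝ) ≤ C * (X / (Q.card * Real.log X)) := by
  obtain ⟨c, C, η, hc, hη, h⟩ := Pool.Agent.W23.SG.linear_forms ε hε
  refine ⟨c, C, η, hc, hη, fun X hX Q hQ hQc E hE => h X hX Q hQ hQc E (fun L hL => ?_)⟩
  obtain ⟨h1, h2, h3, h4, h5⟩ := hE L hL
  refine ⟨h1, h2, h3, h4, lt_of_le_of_lt (le_of_eq ?_) h5⟩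
  refine congrArg _ (congrArg card (Finset.ext fun q => ?_))
  rw [mem_filter, mem_filter]
  rfl

end Pool.Agent.Results.MP_8bf9c2_nt.ArbitrarySetsOfPrimes
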