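import Pool.Agent.X32.Uni.Exact

/-!
# Prescribed patterns of the numbers `a + q d` in a box of pairs `(a, d)`

Let `(a_1, d_1), ..., (a_k, d_k)` be distinct coprime pairs, `a_l ≠ 0`, `d_l ≥ 1`, such that no prime divides
`q ∏ (a_l + q d_l)` for all `q`, let `1 ≤ j ≤ k`, and let `L` be arbitrary. There are `C`, `t` and `κ > 0` such that
every interval `(A, B]` with `B ≤ X`, `B - A ≥ θ X`, contains at least `κ (B - A) / (log X) ^ (k + 1)` primes `q`
(the conjectured order of magnitude) for which `|a_j + q d_j|` is a product of at most two primes `> X ^ (1 / 9)`, all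
`|a_l + q d_l|` are products of at most `t` primes `> X ^ (1 / t)`, and for EVERY other coprime pair `(a, d)` with
`0 < |a| ≤ L`, `1 ≤ d ≤ L` the number `a + q d` has a prime factor `≤ C`. So in the box exactly the given pairs are
realised. Every set of such primes `q` with at least `δ (B - A) / (log X) ^ (k + 1)` elements contains an arithmetic
progression of `s` terms with difference `≤ (log X) ^ c`.
-/

set_option autoImplicit false

namespace Pool.Agent.Results.MP_8bf9c2_nt.ExactBoxPatterns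

open Finset

variable {k : ℕ}

/-- for no prime `p` one of `q, a_l + q d_l` is always divisible by `p` -/
def Admissible (a d : Fin k → ℤ) : Prop :=
  ∀ p : ℕ, p.Prime → ∃ n : ℤ, ¬ (p : ℤ) ∣ n ∧ ∀ l, ¬ (p : ℤ) ∣ a l + n * d l

/-- `|v| > 1`, and `|v|` is a product of at most `r` primes, all of them larger than `y` -/
def Almost (r : ℕ) (y : ℝ) (v : ℤ) : Prop :=
  1 < |v| ∧ v.natAbs.primeFactorsList.length ≤ r ∧ ∀ q : ℕ, q.Prime → (q : ℤ) ∣ v → y < q

open Classical in
/-- the primes `q` of `(A, B]`, larger than `X ^ (1 / t)`, such that `|a_j + q d_j|` is a product of at most two primes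
`> X ^ (1 / 9)`, all `|a_l + q d_l|` are products of at most `t` primes `> X ^ (1 / t)`, and `α + q δ` has a prime
factor `≤ C` for all coprime `α, δ` with `0 < |α| ≤ L`, `1 ≤ δ ≤ L` which are none of the pairs `(a_l, d_l)` -/
noncomputable def Good (a d : Fin k → ℤ) (j : Fin k) (L C t X A B : ℕ) : Finset ℕ :=
  (Ioc A B).filter (fun q : ℕ => q.Prime ∧ (X : ℝ) ^ (1 / (t : ℝ)) < q ∧
    Almost 2 ((X : ℝ) ^ (1 / 9 : ℝ)) (a j + q * d j) ∧
    (∀ l, Almost t ((X : ℝ) ^ (1 / (t : ℝ))) (a l + q * d l)) ∧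
    ∀ α δ : ℤ, α ≠ 0 → |α| ≤ L → 1 ≤ δ → δ ≤ L → IsCoprime α δ → (∀ l, (α, δ) ≠ (a l, d l)) →
      ∃ p : ℕ, p.Prime ∧ p ≤ C ∧ (p : ℤ) ∣ α + q * δ)

theorem prop_eq {a d a' d' : ℤ} (hd : 1 ≤ d) (hd' : 1 ≤ d') (h : IsCoprime a d) (h' : IsCoprime a' d')
    (he : d * a' = d' * a) : (a, d) = (a', d') := by
  have h1 : d ∣ d' := h.symm.dvd_of_dvd_mul_right (Dvd.intro _ he)
  have h2 : d' ∣ d := h'.symm.dvd_of_dvd_mul_right (Dvd.intro _ he.symm)
  have h3 : d = d' := Int.dvd_antisymm (by omega) (by omega) h1 h2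
  subst h3
  have h4 : a' = a := mul_left_cancel₀ (by omega) he
  rw [h4]

theorem result (a d : Fin k → ℤ) (ha : ∀ l, a l ≠ 0) (hd : ∀ l, 1 ≤ d l) (hcop : ∀ l, IsCoprime (a l) (d l))
    (hinj : Function.Injective (fun l => (a l, d l))) (hadm : Admissible a d) (j : Fin k) (L : ℕ) :
    ∃ C t : ℕ, 1 ≤ t ∧ ∃ κ : ℝ, 0 < κ ∧ ∀ (s : ℕ) (θ δ : ℝ), 0 < θ → 0 < δ → ∃ c X₀ : ℕ, ∀ X : ℕ, X₀ ≤ X →
      ∀ A B : ℕ, B ≤ X → θ * X ≤ (B : ℝ) - A →
        κ * ((B : ℝ) - A) / Real.log X ^ (k + 1) ≤ ((Good a d j L C t X A B).card : ℝ) ∧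
        ∀ S : Finset ℕ, S ⊆ Good a d j L C t X A B → δ * ((B : ℝ) - A) / Real.log X ^ (k + 1) ≤ S.card →
          ∃ q h : ℕ, 1 ≤ h ∧ (h : ℝ) ≤ Real.log X ^ c ∧ ∀ l < s, q + l * h ∈ S := by
  classical
  obtain ⟨u, hu⟩ : ∃ u : Fin (k + 1) → ℤ, u = Fin.cons 1 d := ⟨_, rfl⟩
  obtain ⟨v, hv⟩ : ∃ v : Fin (k + 1) → ℤ, v = Fin.cons 0 a := ⟨_, rfl⟩
  have u0 : u 0 = 1 := by rw [hu]; rfl
  have us : ∀ l : Fin k, u l.succ = d l := fun l => by rw [hu]; rfl
  have v0 : v 0 = 0 := by rw [hv]; rfl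
  have vs : ∀ l : Fin k, v l.succ = a l := fun l => by rw [hv]; rfl
  obtain ⟨T, hT⟩ : ∃ T : Finset (ℤ × ℤ), T = ((Icc (1 : ℤ) L) ×ˢ (Icc (-(L : ℤ)) L)).filter
      (fun τ => τ.2 ≠ 0 ∧ IsCoprime τ.2 τ.1 ∧ ∀ l, (τ.2, τ.1) ≠ (a l, d l)) := ⟨_, rfl⟩
  have hTm : ∀ τ : ℤ × ℤ, τ ∈ T ↔ (1 ≤ τ.1 ∧ τ.1 ≤ L ∧ |τ.2| ≤ L) ∧
      (τ.2 ≠ 0 ∧ IsCoprime τ.2 τ.1 ∧ ∀ l, (τ.2, τ.1) ≠ (a l, d l)) := by
    intro τ
    rw [hT, mem_filter, mem_product, mem_Icc, mem_Icc, abs_le]
    tauto
  obtain ⟨C, t, ht, κ, hκ, H⟩ := Pool.Agent.X32.Uni.exactU u v (by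
      intro p hp
      obtain ⟨n, hn1, hn2⟩ := hadm p hp
      refine ⟨n, fun i => ?_⟩
      refine Fin.cases ?_ (fun l => ?_) i
      · rw [u0, v0, one_mul, add_zero]
        exact hn1
      · rw [us, vs, add_comm, mul_comm]
        exact hn2 l) (by
      intro i
      refine Fin.cases ?_ (fun l => ?_) i
      · rw [u0]
        exact one_ne_zero
      · rw [us]
        have := hd l
        omega) (by
      intro i m
      refine Fin.cases ?_ (fun l => ?_) i
      · refine Fin.cases ?_ (fun m => ?_) m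
        · intro h
          exact absurd rfl h
        · intro _
          rw [u0, v0, us, vs, one_mul, mul_zero, sub_zero]
          exact ha m
      · refine Fin.cases ?_ (fun m => ?_) m
        · intro _
          rw [u0, v0, us, vs, one_mul, mul_zero, zero_sub]
          exact neg_ne_zero.2 (ha l)
        · intro h
          rw [us, us, vs, vs]
          intro h0
          apply h
          have h1 := prop_eq (hd l) (hd m) (hcop l) (hcop m) (by linarith)
          rw [hinj (show (fun l => (a l, d l)) l = (fun l => (a l, d l)) m from h1)]) 0 j.succ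
      (Fin.succ_ne_zero j).symm T (by
      intro τ hτ
      have := ((hTm τ).1 hτ).1.1
      omega) (by
      intro τ hτ i
      obtain ⟨⟨e1, e2, e3⟩, e4, e5, e6⟩ := (hTm τ).1 hτ
      refine Fin.cases ?_ (fun l => ?_) i
      · rw [u0, v0, mul_zero, one_mul, zero_sub]
        exact neg_ne_zero.2 e4
      · rw [us, vs]
        intro h0
        apply e6 l
        exact prop_eq e1 (hd l) e5 (hcop l) (by linarith))
  have hgood : ∀ X A B : ℕ, Pool.Agent.X32.Uni.GE' u v T 0 j.succ C t X A B = Good a d j L C t X A B := by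
    intro X A B
    unfold Pool.Agent.X32.Uni.GE' Good
    ext q
    rw [mem_filter, mem_filter]
    refine and_congr_right (fun _ => ?_)
    have hform : ∀ l : Fin k, u l.succ * (q : ℤ) + v l.succ = a l + q * d l := by
      intro l
      rw [us, vs]
      ring
    have hform0 : u 0 * (q : ℤ) + v 0 = q := by
      rw [u0, v0, one_mul, add_zero]
    constructor
    · rintro ⟨g1, g2, g3, g4⟩
      rw [hform0, Int.natAbs_natCast] at g1
      rw [hform] at g2
      refine ⟨g1, ?_, g2, fun l => ?_, fun α β h1 h2 h3 h4 h5 h6 => ?_⟩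
      · have := g3 0
        rw [hform0] at this
        exact this.2.2 q g1 dvd_rfl
      · have := g3 l.succ
        rw [hform] at this
        exact this
      · obtain ⟨p, p1, p2, p3⟩ := g4 (β, α) ((hTm _).2 ⟨⟨h3, h4, h2⟩, h1, h5, h6⟩)
        refine ⟨p, p1, p2, ?_⟩
        have h7 : β * (q : ℤ) + α = α + q * β := by ring
        simp only at p3
        rwa [h7] at p3
    · rintro ⟨g1, g2, g3, g4, g5⟩
      rw [hform0, Int.natAbs_natCast, hform]
      refine ⟨g1, g3, fun i => ?_, fun τ hτ => ?_⟩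
      · refine Fin.cases ?_ (fun l => ?_) i
        · rw [hform0]
          refine ⟨?_, ?_, ?_⟩
          · rw [Nat.abs_cast]
            exact_mod_cast g1.one_lt
          · rw [Int.natAbs_natCast, Nat.primeFactorsList_prime g1]
            exact ht
          · intro p hp hpd
            have h1 := (Nat.prime_dvd_prime_iff_eq hp g1).1 (Int.natCast_dvd_natCast.1 hpd)
            rw [h1]
            exact g2
        · rw [hform]
          exact g4 l
      · obtain ⟨⟨e1, e2, e3⟩, e4, e5, e6⟩ := (hTm τ).1 hτ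
        obtain ⟨p, p1, p2, p3⟩ := g5 τ.2 τ.1 e4 e3 e1 e2 e5 e6
        refine ⟨p, p1, p2, ?_⟩
        have h7 : τ.1 * (q : ℤ) + τ.2 = τ.2 + q * τ.1 := by ring
        rwa [h7]
  refine ⟨C, t, ht, κ, hκ, fun s θ δ hθ hδ => ?_⟩
  obtain ⟨c, X₀, h⟩ := H s θ δ hθ hδ
  refine ⟨c, X₀, fun X hX A B hB hAB => ?_⟩
  have h1 := h X hX A B hB hAB
  rw [hgood] at h1
  exact h1

end Pool.Agent.Results.MP_8bf9c2_nt.ExactBoxPatterns
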