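import Mathlib
import Pool.Agent.X34.E.E10
import Pool.Agent.X34.E.E4

/-!
# One of the first 106 iterates of `x ↦ a + d x`: right order of magnitude and narrow progressions

For every pair `(a, d)` of the question (`a ≠ 0`) one of the first 106 iterates `x ↦ a_j + d ^ j x` of the map
`x ↦ a + d x` maps primes of arbitrarily long narrow arithmetic progressions to primes, and for every large
`x` one of the first 106 iterates maps at least `c x / log ^ 45 x` of the primes `q ≤ x` to primes.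
(`a_j = a (1 + d + ... + d ^ (j - 1))`.) For `d = 2` already one of the first 44 iterates does this.
-/

set_option autoImplicit false

open Finset Filter

namespace Pool.Agent.Results.MP_8bf9c2_nt.Iterates106

/-- the constant term of the `j`-th iterate `x ↦ itc a d j + d ^ j * x` of `x ↦ a + d x` -/
def itc (a d : ℤ) (j : ℕ) : ℤ := a * ∑ i ∈ range j, d ^ i

/-- `q` and `a + q d` are (positive) primes -/
def Pair (a d : ℤ) (q : ℕ) : Prop := q.Prime ∧ ∃ p : ℕ, p.Prime ∧ a + q * d = p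

/-- For every `l` there is `C` such that for infinitely many `N` there is `1 ≤ D ≤ (log N) ^ C` such that
for at least `N / (log N) ^ C` integers `1 ≤ q ≤ N` all terms of the progression
`q, q + D, ..., q + (l - 1) D` are primes which are mapped to primes by `x ↦ a + d x`. -/
def NarrowProgressions (a d : ℤ) : Prop :=
  ∀ l : ℕ, ∃ C : ℕ, ∃ᶠ N : ℕ in atTop, ∃ D : ℕ, 1 ≤ D ∧ (D : ℝ) ≤ Real.log N ^ C ∧
    (N : ℝ) / Real.log N ^ C ≤
      (Set.ncard {q : ℕ | 1 ≤ q ∧ q ≤ N ∧ ∀ t < l, Pair a d (q + t * D)} : ℝ)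

theorem narrow_of {a d : ℤ} (h : Pool.Agent.X34.E.Prog a d) : NarrowProgressions a d := by
  classical
  intro l
  obtain ⟨C, hC⟩ := h l
  refine ⟨C, hC.mono ?_⟩
  rintro N ⟨D, hd1, hd2, hd3⟩
  refine ⟨D, hd1, hd2, hd3.trans ?_⟩
  rw [← Set.ncard_coe_finset, Nat.cast_le]
  apply Set.ncard_le_ncard
  · intro n hn
    simp only [coe_filter, mem_Icc, Set.mem_ofPred_eq] at hn
    refine ⟨hn.1.1, hn.1.2, fun t ht => ?_⟩
    exact hn.2 t ht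
  · exact (Set.finite_Iic N).subset fun n hn => hn.2.1

/-- the counting function -/
theorem count_of (a d : ℤ) (x : ℝ) (hx : 0 ≤ x) (S : Finset ℕ)
    (hS : ∀ q ∈ S, (1 ≤ q ∧ q ≤ ⌊x⌋₊) ∧ q.Prime ∧ Pool.Agent.X34.E.IsP (a + q * d)) :
    (S.card : ℝ) ≤ (Set.ncard {q : ℕ | Pair a d q ∧ (q : ℝ) ≤ x} : ℝ) := by
  rw [← Set.ncard_coe_finset, Nat.cast_le]
  apply Set.ncard_le_ncard
  · intro q hq
    obtain ⟨⟨-, h1⟩, h2, h3⟩ := hS q hq
    exact ⟨⟨h2, h3⟩, (Nat.le_floor_iff hx).1 h1⟩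
  · exact (Set.finite_Iic ⌊x⌋₊).subset fun n hn => Nat.le_floor hn.2

theorem result (a d : ℤ) (hd : 1 ≤ d) (hg : Int.gcd a d = 1) (h2 : 2 ∣ a * d) (ha : a ≠ 0) :
    (∃ j : ℕ, 1 ≤ j ∧ j ≤ 106 ∧ NarrowProgressions (itc a d j) (d ^ j)) ∧
    (∃ c : ℝ, 0 < c ∧ ∀ᶠ x : ℝ in atTop, ∃ j : ℕ, 1 ≤ j ∧ j ≤ 106 ∧ c * x / Real.log x ^ 45 ≤
      (Set.ncard {q : ℕ | Pair (itc a d j) (d ^ j) q ∧ (q : ℝ) ≤ x} : ℝ)) ∧
    (∀ G : Finset ℕ, 45 ≤ G.card →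
      (∀ p : ℕ, p.Prime → 3 ≤ p → p ≤ 43 → (p : ℤ) ∣ d - 1 → ¬ (p : ℤ) ∣ a →
        ∃ r : ℕ, ∀ g ∈ G, ¬ g ≡ r [MOD p]) →
      (∃ g ∈ G, ∃ g' ∈ G, g < g' ∧ NarrowProgressions (itc a d (g' - g)) (d ^ (g' - g))) ∧
      ∃ c : ℝ, 0 < c ∧ ∀ᶠ x : ℝ in atTop, ∃ g ∈ G, ∃ g' ∈ G, g < g' ∧ c * x / Real.log x ^ 45 ≤
        (Set.ncard {q : ℕ | Pair (itc a d (g' - g)) (d ^ (g' - g)) q ∧ (q : ℝ) ≤ x} : ℝ)) := by
  classical
  have hE : Pool.Agent.X34.E.Eng := Pool.Agent.X34.E.dhl45R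
  have gen : ∀ G : Finset ℕ, 45 ≤ G.card →
      (∀ p : ℕ, p.Prime → 3 ≤ p → p ≤ 43 → (p : ℤ) ∣ d - 1 → ¬ (p : ℤ) ∣ a →
        ∃ r : ℕ, ∀ g ∈ G, ¬ g ≡ r [MOD p]) →
      (∃ g ∈ G, ∃ g' ∈ G, g < g' ∧ NarrowProgressions (itc a d (g' - g)) (d ^ (g' - g))) ∧
      ∃ c : ℝ, 0 < c ∧ ∀ᶠ x : ℝ in atTop, ∃ g ∈ G, ∃ g' ∈ G, g < g' ∧ c * x / Real.log x ^ 45 ≤
        (Set.ncard {q : ℕ | Pair (itc a d (g' - g)) (d ^ (g' - g)) q ∧ (q : ℝ) ≤ x} : ℝ) := by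
    intro G hG hloc
    constructor
    · obtain ⟨g, h3, g', h4, h5, h6⟩ := Pool.Agent.X34.E.iter_nar hE a d hd hg h2 ha G hG hloc
      exact ⟨g, h3, g', h4, h5, narrow_of h6⟩
    · obtain ⟨c, hc, h⟩ := Pool.Agent.X34.E.iter_count hE a d hd hg h2 ha G hG hloc
      refine ⟨c, hc, ?_⟩
      filter_upwards [h, eventually_ge_atTop 0] with x hx hx0
      obtain ⟨g, h3, g', h4, h5, h6⟩ := hx
      refine ⟨g, h3, g', h4, h5, h6.trans ?_⟩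
      apply count_of _ _ x hx0
      intro q hq
      rw [mem_filter, mem_Icc] at hq
      exact hq
  obtain ⟨h3, h4⟩ := gen Pool.Agent.X34.E.G45 (by rw [Pool.Agent.X34.E.G45_card])
    (fun p hp hp3 _ _ _ => Pool.Agent.X34.E.G45_loc p hp hp3)
  refine ⟨?_, ?_, gen⟩
  · obtain ⟨g, h5, g', h6, h7, h8⟩ := h3
    have := Pool.Agent.X34.E.G45_le g' h6
    exact ⟨g' - g, by omega, by omega, h8⟩
  · obtain ⟨c, hc, h⟩ := h4
    refine ⟨c, hc, ?_⟩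
    filter_upwards [h] with x hx
    obtain ⟨g, h5, g', h6, h7, h8⟩ := hx
    have := Pool.Agent.X34.E.G45_le g' h6
    exact ⟨g' - g, by omega, by omega, h8⟩

end Pool.Agent.Results.MP_8bf9c2_nt.Iterates106
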