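import Pool.Agent.X31.F2

/-!
# Primes `q` for which `a + q d` is also prime: all `a` near the values of generalised polynomials, all small `d`

`f_i(t) = ∑ u_x t ^ x`, `i = 1, ..., k`, are arbitrary finite real combinations of real powers of `t` with positive
largest exponents `c_i` (for instance `t ^ {3/2}`, `√2 t ^ 3 + t`). For almost all vectors `(n_1, ..., n_k)` of elements of
ARBITRARY dense sets `M_i ⊆ {1, ..., Y_i}`, `Y_i ^ (c_i) ≈ N` (for instance: primes), ALL vectors of integers `a_i` with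
`|a_i - (b_i + f_i(n_i))| ≤ log ^ D N` and ALL `1 ≤ d_i ≤ log ^ D N` for which `(a, d)` is admissible satisfy the asymptotic
formula for the number of the primes `q` such that all the `a_i + q d_i` are prime (up to sign), in every window of a length
of at least `N / log ^ A N`. For `k = 1` this is the question, and `(a, d)` is admissible if and only if `(a, d) = 1` and
`2 ∣ a d`.

The bound for the real additive energy of all generalised polynomials is from `Pool.Agent.X31` (`gp_EB`, in this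
run); the theorem for products of families with small energies is `Pool.Agent.TH935.TF.fam_sys` (starting files).
-/

set_option autoImplicit false

namespace Pool.Agent.Results.MP_8bf9c2_nt.NearGeneralisedPolynomials

open Finset Filter Topology
open Pool.Agent.TH935.TF

/-- the generalised polynomial with the exponents `x ∈ F` and the coefficients `u x` -/
noncomputable def f (F : Finset ℝ) (u : ℝ → ℝ) (t : ℝ) : ℝ := ∑ x ∈ F, u x * t ^ x

/-- The number of the primes `q` with `y₁ < q ≤ y₂` for which all the `|a i + q * d i|` are primes. -/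
def count {k : ℕ} (a d : Fin k → ℤ) (y₁ y₂ : ℕ) : ℕ :=
  ((Ioc y₁ y₂).filter (fun q : ℕ => q.Prime ∧ ∀ i, (a i + q * d i).natAbs.Prime)).card

/-- For every prime `p` there is an `r` such that `p` divides neither `r` nor any `a i + r * d i`. -/
def Admissible {k : ℕ} (a d : Fin k → ℤ) : Prop :=
  ∀ p : ℕ, p.Prime → ∃ r : ℤ, ¬ (p : ℤ) ∣ r ∧ ∀ i, ¬ (p : ℤ) ∣ a i + r * d i

/-- The number of the `r < p` for which `p` divides `r` or one of the `a i + r * d i`. -/
def nu {k : ℕ} (a d : Fin k → ℤ) (p : ℕ) : ℕ :=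
  ((range p).filter (fun r : ℕ => (p : ℤ) ∣ (r : ℤ) ∨ ∃ i, (p : ℤ) ∣ a i + (r : ℤ) * d i)).card

/-- The partial products `∏_{p ≤ z} (1 - ν(p) / p) / (1 - 1 / p) ^ (k + 1)` of the singular series. -/
noncomputable def sing {k : ℕ} (a d : Fin k → ℤ) (z : ℕ) : ℝ :=
  ∏ p ∈ (Icc 1 z).filter Nat.Prime, (1 - (nu a d p : ℝ) / p) / (1 - 1 / (p : ℝ)) ^ (k + 1)

/-- The singular series converges to a number `S ≥ δ`, and for every window `(y₁, y₂]` with `y₂ ≤ B N` and
`y₂ - y₁ ≥ N / log ^ A N`, the number of the primes `q` in the window for which all the `|a i + q * d i|` are primes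
agrees with `S (y₂ - y₁) / log ^ (k + 1) N` up to a relative error of at most `ε`. -/
def Holds (ε δ : ℝ) (A B N : ℕ) {k : ℕ} (a d : Fin k → ℤ) : Prop :=
  ∃ S : ℝ, δ ≤ S ∧ Tendsto (sing a d) atTop (𝓝 S) ∧
    ∀ y₁ y₂ : ℕ, y₁ < y₂ → y₂ ≤ B * N → (N : ℝ) / Real.log N ^ A ≤ (y₂ : ℝ) - y₁ →
      |(count a d y₁ y₂ : ℝ) - S * ((y₂ : ℝ) - y₁) / Real.log N ^ (k + 1)| ≤
        ε * (S * ((y₂ : ℝ) - y₁) / Real.log N ^ (k + 1))

lemma form (x y z : ℤ) : y * z + x = x + z * y := by ring

lemma om_eq {k : ℕ} (a d : Fin k → ℤ) (p : ℕ) :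
    om (consA d) (consB a) p = nu a d p := by
  unfold om nu
  congr 1
  apply filter_congr
  intro r _
  constructor
  · rintro ⟨i, hi⟩
    revert hi
    refine Fin.cases ?_ (fun i => ?_) i
    · intro hi
      left
      rw [consA_zero, consB_zero, one_mul, add_zero] at hi
      exact hi
    · intro hi
      right
      rw [consA_succ, consB_succ, form] at hi
      exact ⟨i, hi⟩
  · rintro (hi | ⟨i, hi⟩)
    · exact ⟨0, by rw [consA_zero, consB_zero, one_mul, add_zero]; exact hi⟩
    · exact ⟨i.succ, by rw [consA_succ, consB_succ, form]; exact hi⟩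

lemma sing_eq {k : ℕ} (a d : Fin k → ℤ) :
    (fun z => Gz (om (consA d) (consB a)) (k + 1) z) = sing a d := by
  funext z
  unfold Gz sing Fq Pool.Agent.H373R2.T7.pz
  apply prod_congr rfl
  intro p _
  rw [om_eq a d p]

lemma adm_of {k : ℕ} (a d : Fin k → ℤ) (hadm : Admissible a d) : Adm (consA d) (consB a) := by
  intro p hp
  obtain ⟨r, h1, h2⟩ := hadm p hp
  refine ⟨r, fun i => ?_⟩
  refine Fin.cases ?_ (fun i => ?_) i
  · rw [consA_zero, consB_zero, one_mul, add_zero]
    exact h1
  · rw [consA_succ, consB_succ, form]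
    exact h2 i

lemma dist_of {k : ℕ} (a d : Fin k → ℤ) (h0 : ∀ i, a i ≠ 0) (hd0 : ∀ i, 1 ≤ d i)
    (hd : ∀ i j, i ≠ j → ¬ (a i = a j ∧ d i = d j)) :
    Dist (consA d) (consB a) := by
  intro i j hij
  revert hij
  refine Fin.cases ?_ (fun i => ?_) i <;> refine Fin.cases ?_ (fun j => ?_) j
  · intro h
    exact absurd rfl h
  · intro _
    simp only [consA_zero, consA_succ, consB_zero, consB_succ]
    have := h0 j
    constructor <;> omega
  · intro _
    simp only [consA_zero, consA_succ, consB_zero, consB_succ]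
    have := h0 i
    constructor <;> omega
  · intro hne
    simp only [consA_succ, consB_succ]
    have h1 := hd i j (fun h2 => hne (by rw [h2]))
    have h3 := hd0 i
    have h4 := hd0 j
    constructor
    · rintro ⟨h5, h6⟩
      exact h1 ⟨h6, h5⟩
    · omega

lemma cn_eq {k : ℕ} (a d : Fin k → ℤ) (y₁ y₂ : ℕ) :
    cn (consA d) (consB a) y₁ y₂ = count a d y₁ y₂ := by
  unfold cn count
  congr 1
  apply filter_congr
  intro n _
  constructor
  · intro h1
    refine ⟨?_, fun i => ?_⟩
    · have h2 := h1 0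
      rw [consA_zero, consB_zero, one_mul, add_zero, Int.natAbs_natCast] at h2
      exact h2
    · have h2 := h1 i.succ
      rw [consA_succ, consB_succ, form] at h2
      exact h2
  · rintro ⟨h1, h2⟩ i
    refine Fin.cases ?_ (fun i => ?_) i
    · rw [consA_zero, consB_zero, one_mul, add_zero, Int.natAbs_natCast]
      exact h1
    · rw [consA_succ, consB_succ, form]
      exact h2 i

/-- for `k = 1`: the condition of the problem -/
lemma adm_one (a d : ℤ) : Admissible (fun _ : Fin 1 => a) (fun _ => d) ↔ (Int.gcd a d = 1 ∧ 2 ∣ a * d) := by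
  constructor
  · intro h
    constructor
    · by_contra hne
      obtain ⟨p, hp, hpd⟩ := Nat.exists_prime_and_dvd hne
      have h1 : (p : ℤ) ∣ a := (Int.natCast_dvd_natCast.2 hpd).trans (Int.gcd_dvd_left ..)
      have h2 : (p : ℤ) ∣ d := (Int.natCast_dvd_natCast.2 hpd).trans (Int.gcd_dvd_right ..)
      obtain ⟨r, _, hr⟩ := h p hp
      exact hr 0 (dvd_add h1 (dvd_mul_of_dvd_right h2 r))
    · obtain ⟨r, hr1, hr2⟩ := h 2 Nat.prime_two
      have hr2' := hr2 0
      simp only at hr2'
      by_contra hcon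
      have ha : ¬ (2 : ℤ) ∣ a := fun h => hcon (dvd_mul_of_dvd_left h d)
      have hd : ¬ (2 : ℤ) ∣ d := fun h => hcon (dvd_mul_of_dvd_right h a)
      have hr1' : ¬ (2 : ℤ) ∣ r := by exact_mod_cast hr1
      have e1 : Odd a := Int.not_even_iff_odd.1 (fun h => ha h.two_dvd)
      have e2 : Odd d := Int.not_even_iff_odd.1 (fun h => hd h.two_dvd)
      have e3 : Odd r := Int.not_even_iff_odd.1 (fun h => hr1' h.two_dvd)
      have e4 : Even (a + r * d) := e1.add_odd (e3.mul e2)
      exact hr2' (by exact_mod_cast e4.two_dvd)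
  · rintro ⟨hg, h2⟩ p hp
    by_cases hpd : (p : ℤ) ∣ d
    · refine ⟨1, ?_, fun _ h => ?_⟩
      · intro h
        have h3 := Int.natAbs_dvd_natAbs.2 h
        simp only [Int.natAbs_natCast, Int.natAbs_one, Nat.dvd_one] at h3
        exact hp.one_lt.ne' h3
      · simp only [one_mul] at h
        have h3 : (p : ℤ) ∣ a := (Int.dvd_add_left hpd).1 h
        have h5 : (p : ℤ) ∣ ((Int.gcd a d : ℕ) : ℤ) := Int.dvd_coe_gcd h3 hpd
        have h4 : p ∣ Int.gcd a d := by exact_mod_cast h5
        rw [hg, Nat.dvd_one] at h4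
        exact hp.one_lt.ne' h4
    · -- among `1` and `2` (or `1` if `p = 2`) one works
      by_cases hpa : (p : ℤ) ∣ a
      · refine ⟨1, ?_, fun _ h => ?_⟩
        · intro h
          have h3 := Int.natAbs_dvd_natAbs.2 h
          simp only [Int.natAbs_natCast, Int.natAbs_one, Nat.dvd_one] at h3
          exact hp.one_lt.ne' h3
        · simp only [one_mul] at h
          exact hpd ((Int.dvd_add_right hpa).1 h)
      · -- `p` is odd
        have hp2 : p ≠ 2 := by
          rintro rfl
          rcases Int.Prime.dvd_mul' Nat.prime_two (by exact_mod_cast h2) with h | h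
          · exact hpa h
          · exact hpd h
        by_cases h1 : (p : ℤ) ∣ a + 1 * d
        · refine ⟨2, ?_, fun _ h => ?_⟩
          · intro h
            have h3 := Int.natAbs_dvd_natAbs.2 h
            have h4 : p ∣ 2 := by simpa using h3
            exact hp2 ((Nat.prime_dvd_prime_iff_eq hp Nat.prime_two).1 h4)
          · simp only at h
            apply hpd
            have : (p : ℤ) ∣ (a + 2 * d) - (a + 1 * d) := dvd_sub h h1
            have e : (a + 2 * d) - (a + 1 * d) = d := by ring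
            rwa [e] at this
        · refine ⟨1, ?_, fun _ h => h1 h⟩
          intro h
          have h3 := Int.natAbs_dvd_natAbs.2 h
          simp only [Int.natAbs_natCast, Int.natAbs_one, Nat.dvd_one] at h3
          exact hp.one_lt.ne' h3

/-- Part 1. For every `k ≥ 1` there is `δ > 0` with the following property. Let `f_i = f (F i) (u i)`, `i = 1, ..., k`, be
arbitrary generalised polynomials with the largest exponents `c i > 0` and `u i (c i) ≠ 0`, let `A`, `B`, `D`, `U` be
natural numbers and `ε > 0`. For all sufficiently large `N` and all `Y i` with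
`N / log ^ D N ≤ (Y i) ^ (c i) ≤ N`, ALL sets `M i ⊆ {1, ..., Y i}` with at least `Y i / log ^ D N` elements and all real
`b i` with `|b i| ≤ N`: for all but at most `(∏ #(M i)) / log ^ U N` of the vectors `n` with `n i ∈ M i`, ALL vectors
`a`, `d` of integers with `a i ≠ 0`, `|a i - (b i + f_i(n i))| ≤ log ^ D N` and `1 ≤ d i ≤ log ^ D N`, such that the
pairs `(a i, d i)` are different and `(a, d)` is admissible, satisfy `Holds ε δ A B N a d`.

Part 2. For `k = 1`, `(a, d)` is admissible exactly if `gcd(a, d) = 1` and `2 ∣ a d`. -/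
theorem result :
    (∀ k : ℕ, 1 ≤ k → ∃ δ : ℝ, 0 < δ ∧
      ∀ (F : Fin k → Finset ℝ) (u : Fin k → ℝ → ℝ) (c : Fin k → ℝ),
        (∀ i, c i ∈ F i ∧ (∀ x ∈ F i, x ≤ c i) ∧ u i (c i) ≠ 0 ∧ 0 < c i) →
      ∀ (A B D U : ℕ) (ε : ℝ), 0 < ε → ∃ N₀ : ℕ, ∀ N : ℕ, N₀ ≤ N →
      ∀ (Y : Fin k → ℕ) (M : Fin k → Finset ℕ) (b : Fin k → ℝ),
        (∀ i, (N : ℝ) / Real.log N ^ D ≤ (Y i : ℝ) ^ (c i) ∧ (Y i : ℝ) ^ (c i) ≤ N ∧
          M i ⊆ Icc 1 (Y i) ∧ (Y i : ℝ) / Real.log N ^ D ≤ (M i).card ∧ |b i| ≤ N) →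
      ∃ E : Finset (Fin k → ℕ), (E.card : ℝ) ≤ (∏ i, ((M i).card : ℝ)) / Real.log N ^ U ∧
        ∀ n : Fin k → ℕ, (∀ i, n i ∈ M i) → n ∉ E → ∀ a d : Fin k → ℤ,
          (∀ i, a i ≠ 0 ∧ |(a i : ℝ) - (b i + f (F i) (u i) (n i))| ≤ Real.log N ^ D ∧
            1 ≤ d i ∧ (d i : ℝ) ≤ Real.log N ^ D) →
          (∀ i j, i ≠ j → ¬ (a i = a j ∧ d i = d j)) → Admissible a d → Holds ε δ A B N a d) ∧
    (∀ a d : ℤ, Admissible (fun _ : Fin 1 => a) (fun _ => d) ↔ (Int.gcd a d = 1 ∧ 2 ∣ a * d)) := by
  classical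
  refine ⟨fun k hk => ?_, adm_one⟩
  obtain ⟨δ, hδ, hlow⟩ := Gz_low (k + 1) (by omega)
  refine ⟨δ, hδ, fun F u c hF A B D U ε hε => ?_⟩
  obtain ⟨N₀, h0⟩ := Pool.Agent.X31.gp_tuples F u c (fun i => (hF i).1) (fun i => (hF i).2.1)
    (fun i => (hF i).2.2.1) (fun i => (hF i).2.2.2) D U _
    (fun h _ => Pool.Agent.X31.famT_sys (sys_lam k hk) hk h A B D ε hε)
  refine ⟨N₀ + 3, fun N hN Y M b hdat => ?_⟩
  have hl : 0 < Real.log N := Real.log_pos (by exact_mod_cast (by omega : 1 < N))
  refine ⟨(Fintype.piFinset M).filter (fun n => ¬ ∀ a d : Fin k → ℤ,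
          (∀ i, a i ≠ 0 ∧ |(a i : ℝ) - (b i + f (F i) (u i) (n i))| ≤ Real.log N ^ D ∧
            1 ≤ d i ∧ (d i : ℝ) ≤ Real.log N ^ D) →
          (∀ i j, i ≠ j → ¬ (a i = a j ∧ d i = d j)) → Admissible a d → Holds ε δ A B N a d), ?_, ?_⟩
  swap
  · intro n hn hnE
    rw [mem_filter] at hnE
    by_contra hcon
    exact hnE ⟨Fintype.mem_piFinset.2 hn, hcon⟩
  · apply h0 N (by omega) Y M b (fun i => ?_) _ (filter_subset _ _)
    · intro n hn
      rw [mem_filter] at hn
      obtain ⟨_, hn⟩ := hn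
      push Not at hn
      obtain ⟨a, d, had, hdis, hadm, hbad⟩ := hn
      refine ⟨a, fun i => ?_, fun hG => hbad ?_⟩
      · have := (had i).2.1
        unfold f at this
        unfold Pool.Agent.X31.gp
        exact this
      · have hA := adm_of a d hadm
        have hD := dist_of a d (fun i => (had i).1) (fun i => (had i).2.2.1)
          (fun i j hij h => hdis i j hij h.1 h.2)
        obtain ⟨S, hS0, hS1, hS2⟩ := hG d (fun i => by have := (had i).2.2.1; omega)
          (fun i => by
            have h1 := (had i).2.2.1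
            rw [Nat.cast_natAbs, Int.cast_abs, abs_of_nonneg (by exact_mod_cast (by omega : (0 : ℤ) ≤ d i))]
            exact (had i).2.2.2) hA hD
        have hloc := loc_of hA hD ((sys_lam k hk).ne _ (fun i => by have := (had i).2.2.1; omega))
        refine ⟨S, ?_, ?_, fun y₁ y₂ h12 hy2 hw => ?_⟩
        · exact ge_of_tendsto' hS1 (fun z => hlow _ _ hloc z)
        · rw [← sing_eq a d]
          exact hS1
        · have h3 := hS2 y₁ y₂ h12.le hy2 hw
          rw [cn_eq a d y₁ y₂] at h3
          exact h3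
    · obtain ⟨d1, d2, d3, d4, d5⟩ := hdat i
      rw [div_le_iff₀ (by positivity)] at d1 d4
      exact ⟨d2, d1, d3, d4, d5⟩

end Pool.Agent.Results.MP_8bf9c2_nt.NearGeneralisedPolynomials
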